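import Mathlib

/-!
Transcendence rank of finite families in a field extension, and generic points of hypersurfaces.
-/

open Set MvPolynomial

namespace Pool.Agent.MP_249f74_an.H88

section Rank

variable (k : Type*) [Field k] {E : Type*} [Field E] [Algebra k E]

/-- Transcendence rank of a set. -/
noncomputable def rk (S : Set E) : ℕ∞ := (AlgebraicIndependent.matroid k E).eRk S

/-- Algebraic closure of the field generated by a set. -/
noncomputable def cl (S : Set E) : IntermediateField k E :=
  ((Subalgebra.algebraicClosure (Algebra.adjoin k S) E).restrictScalars k).toIntermediateField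
    (fun _ hx => IsAlgebraic.inv (R := Algebra.adjoin k S) hx)

variable {k}

lemma mem_cl {S : Set E} {x : E} : x ∈ cl k S ↔ IsAlgebraic (Algebra.adjoin k S) x := Iff.rfl

lemma coe_cl (S : Set E) : (cl k S : Set E) = (AlgebraicIndependent.matroid k E).closure S := by
  rw [AlgebraicIndependent.matroid_closure_eq]; rfl

lemma subset_cl (S : Set E) : S ⊆ cl k S := fun x hx =>
  isAlgebraic_algebraMap (⟨x, Algebra.subset_adjoin hx⟩ : Algebra.adjoin k S)

lemma rk_le {S T : Set E} (h : T ⊆ cl k S) : rk k T ≤ rk k S := by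
  rw [coe_cl] at h
  unfold rk
  rw [← Matroid.eRk_closure_eq _ S]
  exact Matroid.eRk_mono _ h

lemma rk_union (S T : Set E) : rk k (S ∪ T) ≤ rk k S + rk k T :=
  Matroid.eRk_union_le_eRk_add_eRk _ _ _

lemma rk_insert {S : Set E} {x : E} (h : x ∉ cl k S) : rk k (insert x S) = rk k S + 1 := by
  refine Matroid.eRk_insert_eq_add_one ⟨by simp, ?_⟩
  rw [← coe_cl]; exact h

lemma rk_insert_le (S : Set E) (x : E) : rk k (insert x S) ≤ rk k S + 1 :=
  Matroid.eRk_insert_le_add_one _ _ _

lemma rk_le_card {ι : Type*} [Fintype ι] (y : ι → E) : rk k (range y) ≤ Fintype.card ι := by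
  refine (Matroid.eRk_le_encard _ _).trans ?_
  rw [← image_univ]
  refine (encard_image_le _ _).trans ?_
  simp

lemma mem_cl_of_root {S : Set E} {x : E} {p : Polynomial E} (hp : p ≠ 0)
    (hc : ∀ i, p.coeff i ∈ cl k S) (hx : p.eval x = 0) : x ∈ cl k S := by
  have h1 : x ∈ cl k (cl k S : Set E) := by
    rw [mem_cl]
    have h2 : p ∈ Polynomial.lifts (algebraMap (Algebra.adjoin k (cl k S : Set E)) E) := by
      rw [Polynomial.lifts_iff_coeff_lifts]
      exact fun n => ⟨⟨_, Algebra.subset_adjoin (hc n)⟩, rfl⟩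
    obtain ⟨q, rfl⟩ := h2
    refine ⟨q, ?_, ?_⟩
    · rintro rfl; simp at hp
    · rw [Polynomial.aeval_def, Polynomial.eval₂_eq_eval_map]; exact hx
  rw [← SetLike.mem_coe, coe_cl, coe_cl, Matroid.closure_closure, ← coe_cl] at h1
  exact h1

lemma le_rk_iff {ι : Type*} (y : ι → E) (m : ℕ) :
    (m : ℕ∞) ≤ rk k (range y) ↔
      ∃ J : Finset ι, J.card = m ∧ AlgebraicIndependent k (fun i : J => y i) := by
  classical
  constructor
  · intro h
    obtain ⟨I, hI, hind, hc⟩ := Matroid.le_eRk_iff.1 h
    have hfin : I.Finite := finite_of_encard_eq_coe hc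
    have hs : ∀ a : I, ∃ i, y i = a := fun a => hI a.2
    choose s hs using hs
    have hinj : Function.Injective s := fun a b hab => Subtype.ext (by rw [← hs, ← hs, hab])
    have := hfin.fintype
    refine ⟨Finset.univ.image s, ?_, ?_⟩
    · rw [Finset.card_image_of_injective _ hinj, Finset.card_univ]
      have := hc
      rw [Set.encard_eq_coe_toFinset_card, Set.toFinset_card] at this
      exact_mod_cast this
    · have hind' : AlgebraicIndependent k (fun a : I => (a : E)) := hind
      have hs2 : ∀ j : (Finset.univ.image s : Finset ι), ∃ a, s a = j := fun j => by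
        obtain ⟨a, -, ha⟩ := Finset.mem_image.1 j.2
        exact ⟨a, ha⟩
      choose t ht using hs2
      have htinj : Function.Injective t := fun a b hab => Subtype.ext (by rw [← ht, ← ht, hab])
      have := hind'.comp t htinj
      convert this using 1
      ext j
      simp only [Function.comp_apply]
      rw [← hs, ht]
  · rintro ⟨J, hJ, hind⟩
    have h1 : (AlgebraicIndependent.matroid k E).Indep (range fun i : J => y i) :=
      hind.to_subtype_range
    have h2 := h1.encard_le_eRk_of_subset (X := range y) (by rintro _ ⟨i, rfl⟩; exact ⟨_, rfl⟩)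
    refine le_trans (le_trans (le_of_eq ?_) hind.injective.encard_range) h2
    simp [hJ]

/-- All coordinates but one are algebraically independent. -/
def Gen (k : Type*) [Field k] {A σ : Type*} [CommRing A] [Algebra k A] (y : σ → A) : Prop :=
  ∃ j : σ, AlgebraicIndependent k (fun i : {i // i ≠ j} => y i)

lemma gen_of_rk {σ : Type*} [Fintype σ] {e : ℕ} (hσ : Fintype.card σ = e + 1) {y : σ → E}
    (h : (e : ℕ∞) ≤ rk k (range y)) : Gen k y := by
  classical
  obtain ⟨J, hJ, hind⟩ := (le_rk_iff y e).1 h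
  have h1 : Jᶜ.card = 1 := by rw [Finset.card_compl, hσ, hJ]; omega
  obtain ⟨j, hj⟩ := Finset.card_eq_one.1 h1
  have h2 : ∀ i, i ≠ j → i ∈ J := fun i hi => by
    by_contra h3
    have : i ∈ Jᶜ := Finset.mem_compl.2 h3
    rw [hj] at this
    exact hi (Finset.mem_singleton.1 this)
  exact ⟨j, hind.comp (fun i : {i // i ≠ j} => (⟨i, h2 i i.2⟩ : J))
    (fun a b hab => Subtype.ext (congrArg (fun x : J => (x : σ)) hab))⟩

lemma rk_le_of_root {σ : Type*} [Fintype σ] {e : ℕ} (hσ : Fintype.card σ = e + 1) {y : σ → E}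
    {P : MvPolynomial σ k} (hP : P ≠ 0) (h : aeval y P = 0) : rk k (range y) ≤ e := by
  classical
  by_contra h1
  have h2 : ((e + 1 : ℕ) : ℕ∞) ≤ rk k (range y) := by
    push_cast
    exact Order.add_one_le_of_lt (not_le.1 h1)
  obtain ⟨J, hJ, hind⟩ := (le_rk_iff y _).1 h2
  have h3 : J = Finset.univ := Finset.eq_univ_of_card _ (by rw [hJ, hσ])
  have h4 : AlgebraicIndependent k y :=
    hind.comp (fun i : σ => (⟨i, by rw [h3]; exact Finset.mem_univ _⟩ : J))
      (fun a b hab => congrArg (fun x : J => (x : σ)) hab)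
  exact hP (h4 (by rw [h, map_zero]))

end Rank

section Generic

variable {k : Type*} [Field k] {σ : Type*} [DecidableEq σ]

/-- View a polynomial as a polynomial in the variable `j`. -/
noncomputable def uni (k : Type*) [Field k] (j : σ) :
    MvPolynomial σ k ≃ₐ[k] Polynomial (MvPolynomial {i // i ≠ j} k) :=
  (renameEquiv k (Equiv.optionSubtypeNe j).symm).trans (optionEquivLeft k _)

lemma uni_X_self (j : σ) : uni k j (X j) = Polynomial.X := by
  simp [uni, optionEquivLeft_X_none]

lemma uni_X_ne {j i : σ} (h : i ≠ j) : uni k j (X i) = Polynomial.C (X ⟨i, h⟩) := by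
  simp [uni, Equiv.optionSubtypeNe_symm_of_ne h, optionEquivLeft_X_some]

lemma aeval_uni {A : Type*} [CommRing A] [Algebra k A] (j : σ) (y : σ → A)
    (P : MvPolynomial σ k) :
    aeval y P = (uni k j P).eval₂
      (aeval (fun i : {i // i ≠ j} => y i) : MvPolynomial _ k →ₐ[k] A).toRingHom (y j) := by
  induction P using MvPolynomial.induction_on with
  | C a =>
    have : uni k j (C a) = Polynomial.C (C a) := by
      simpa using (uni k j).commutes a
    rw [this]; simp
  | add p q hp hq => rw [map_add, map_add, Polynomial.eval₂_add, hp, hq]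
  | mul_X p i hp =>
    rw [map_mul, map_mul, Polynomial.eval₂_mul, hp]
    congr 1
    by_cases h : i = j
    · subst h; rw [uni_X_self]; simp
    · rw [uni_X_ne h]; simp

variable {E : Type*} [Field E] [Algebra k E]

lemma dvd_aux {R : Type*} [CommRing R] [IsDomain R] [IsGCDMonoid R] (φ : R →+* E)
    (hφ : Function.Injective φ) (t : E) {p q : Polynomial R} (hp : Irreducible p)
    (h1 : p.eval₂ φ t = 0) (h2 : q.eval₂ φ t = 0) : p ∣ q := by
  have hdeg : p.natDegree ≠ 0 := by
    intro h0
    rw [Polynomial.eq_C_of_natDegree_eq_zero h0, Polynomial.eval₂_C] at h1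
    have h3 : p.coeff 0 = 0 := hφ (by rw [map_zero]; exact h1)
    apply hp.ne_zero
    rw [Polynomial.eq_C_of_natDegree_eq_zero h0, h3, map_zero]
  have hprim := hp.isPrimitive hdeg
  have hp' :=
    (hprim.irreducible_iff_irreducible_map_fraction_map (K := FractionRing R)).1 hp
  have h4 : p.map (algebraMap R (FractionRing R)) ∣ q.map (algebraMap R (FractionRing R)) := by
    by_contra h5
    obtain ⟨a, b, hab⟩ := (hp'.coprime_iff_not_dvd).2 h5
    let ψ : FractionRing R →+* E := IsFractionRing.lift hφ
    have hψ : ψ.comp (algebraMap R (FractionRing R)) = φ :=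
      RingHom.ext fun x => IsFractionRing.lift_algebraMap hφ x
    have h6 := congrArg (Polynomial.eval₂ ψ t) hab
    rw [Polynomial.eval₂_add, Polynomial.eval₂_mul, Polynomial.eval₂_mul, Polynomial.eval₂_map,
      Polynomial.eval₂_map, hψ, h1, h2] at h6
    simp at h6
  exact hprim.dvd_of_fraction_map_dvd_fraction_map h4

lemma dvd_of_gen {y : σ → E} (hy : Gen k y) {π Q : MvPolynomial σ k}
    (hπ : Irreducible π) (h1 : aeval y π = 0) (h2 : aeval y Q = 0) : π ∣ Q := by
  obtain ⟨j, hind⟩ := hy
  rw [aeval_uni j] at h1 h2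
  exact (map_dvd_iff (uni k j)).1 (dvd_aux _ hind _ (hπ.map (uni k j)) h1 h2)

omit [DecidableEq σ] in
lemma totalDegree_pderiv_lt {P : MvPolynomial σ k} {j : σ} (h : pderiv j P ≠ 0) :
    (pderiv j P).totalDegree < P.totalDegree := by
  obtain ⟨m, hm, hm2⟩ := Finset.exists_mem_eq_sup (pderiv j P).support
    (support_nonempty.2 h) (fun s => s.sum fun _ e => e)
  have h1 : m + Finsupp.single j 1 ∈ P.support := by
    rw [mem_support_iff] at hm ⊢
    rw [coeff_pderiv] at hm
    exact left_ne_zero_of_mul hm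
  have h2 := le_totalDegree h1
  rw [Finsupp.sum_add_index' (by simp) (by simp), Finsupp.sum_single_index rfl] at h2
  unfold totalDegree at h2 ⊢
  rw [hm2]
  omega

lemma exists_pderiv_ne [CharZero k] {y : σ → E} (hy : Gen k y)
    {π : MvPolynomial σ k} (hπ : Irreducible π) (h1 : aeval y π = 0) :
    ∃ j, aeval y (pderiv j π) ≠ 0 := by
  by_contra h
  push Not at h
  have h2 : ∀ j, pderiv j π = 0 := fun j => by
    by_contra h3
    have h4 := totalDegree_le_of_dvd_of_isDomain (dvd_of_gen hy hπ h1 (h j)) h3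
    have h5 := totalDegree_pderiv_lt h3
    omega
  have h3 : π.totalDegree = 0 := by
    rw [totalDegree_eq_zero_iff]
    intro m hm j
    by_contra h4
    have h5 := coeff_pderiv (i := j) π (m - Finsupp.single j 1)
    have h6 : m - Finsupp.single j 1 + Finsupp.single j 1 = m := by
      apply tsub_add_cancel_of_le
      rw [Finsupp.single_le_iff]; omega
    rw [h2, h6, coeff_zero] at h5
    rcases mul_eq_zero.1 h5.symm with h7 | h7
    · exact (mem_support_iff.1 hm) h7
    · exact Nat.cast_add_one_ne_zero _ h7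
  rw [totalDegree_eq_zero_iff_eq_C] at h3
  rw [h3, aeval_C] at h1
  have h4 : coeff 0 π = 0 := (map_eq_zero _).1 h1
  apply hπ.ne_zero
  rw [h3, h4, map_zero]

/-- The sum of squares is irreducible over a subfield of the reals. -/
lemma irreducible_sumsq [Fintype σ] [Algebra k ℝ] (hσ : 2 ≤ Fintype.card σ) :
    Irreducible (∑ i : σ, (X i : MvPolynomial σ k) ^ 2) := by
  obtain ⟨j, j', hj⟩ := Fintype.exists_pair_of_one_lt_card (α := σ) (by omega)
  rw [← MulEquiv.irreducible_iff (f := uni k j)]
  set c : MvPolynomial {i // i ≠ j} k := ∑ i, X i ^ 2 with hc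
  have h1 : uni k j (∑ i : σ, (X i : MvPolynomial σ k) ^ 2)
      = Polynomial.X ^ 2 + Polynomial.C c := by
    rw [Fintype.sum_eq_add_sum_subtype_ne _ j, map_add, map_pow, uni_X_self, hc, map_sum, map_sum]
    congr 1
    refine Finset.sum_congr rfl fun i _ => ?_
    rw [map_pow, uni_X_ne i.2, map_pow]
  rw [h1]
  have h2 : (Polynomial.X ^ 2 + Polynomial.C c).natDegree = 2 := Polynomial.natDegree_X_pow_add_C
  rw [(Polynomial.monic_X_pow_add_C c two_ne_zero).irreducible_iff_roots_eq_zero_of_degree_le_three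
    (by omega) (by omega)]
  refine Multiset.eq_zero_of_forall_notMem fun r hr => ?_
  have h3 := (Polynomial.mem_roots'.1 hr).2
  simp only [Polynomial.IsRoot.def, Polynomial.eval_add, Polynomial.eval_pow, Polynomial.eval_X,
    Polynomial.eval_C] at h3
  have h4 := congrArg (aeval (fun _ : {i // i ≠ j} => (1 : ℝ))) h3
  simp only [hc, map_add, map_pow, map_sum, aeval_X, map_zero, one_pow, Finset.sum_const,
    Finset.card_univ, nsmul_eq_mul, mul_one] at h4
  have h5 : 0 < Fintype.card {i // i ≠ j} := Fintype.card_pos_iff.2 ⟨⟨j', hj.symm⟩⟩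
  have h6 : (0 : ℝ) < Fintype.card {i // i ≠ j} := by exact_mod_cast h5
  nlinarith [sq_nonneg (aeval (fun _ : {i // i ≠ j} => (1 : ℝ)) r)]

end Generic

end Pool.Agent.MP_249f74_an.H88
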