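import Mathlib

/-!
A transcendental element of a field of characteristic zero is moved by some derivation.
-/

open Set MvPolynomial

namespace Pool.Agent.MP_249f74_an.H88

variable {k K : Type*} [Field k] [Field K] [Algebra k K]

open scoped IntermediateField.algebraAdjoinAdjoin in
lemma exists_hom_dual [CharZero k] {x : K} (hx : Transcendental k x) :
    ∃ φ : K →+* TrivSqZeroExt K K, (∀ y, (φ y).fst = y) ∧
      (∀ a : k, (φ (algebraMap k K a)).snd = 0) ∧ (φ x).snd = 1 := by
  classical
  have h1 : AlgebraicIndepOn k id ({x} : Set K) := by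
    have := (algebraicIndependent_singleton_iff (R := k) (x := fun a : ({x} : Set K) => (a : K))
      ⟨x, rfl⟩).2 hx
    exact this
  obtain ⟨B, hxB, hB⟩ := exists_isTranscendenceBasis_superset h1
  set v : B → K := (↑) with hv
  let R := Algebra.adjoin k (range v)
  let F := IntermediateField.adjoin k (range v)
  have hF : Algebra.IsAlgebraic F K := hB.isAlgebraic_field
  have : CharZero F := charZero_of_injective_algebraMap (algebraMap k F).injective
  have : Algebra.FormallySmooth R F := .of_isLocalization (nonZeroDivisors _)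
  have : Algebra.FormallyEtale F K := Algebra.FormallyEtale.of_isSeparable _ K
  have : Algebra.FormallySmooth R K := .comp _ F _
  let w : B → TrivSqZeroExt K K := fun b =>
    TrivSqZeroExt.inl (b : K) + TrivSqZeroExt.inr (if (b : K) = x then 1 else 0)
  let ψ : R →ₐ[k] TrivSqZeroExt K K :=
    (aeval w).comp (hB.1.aevalEquiv.symm : R →ₐ[k] MvPolynomial B k)
  have hψ : ∀ r : R, (ψ r).fst = (r : K) := by
    intro r
    obtain ⟨P, rfl⟩ := hB.1.aevalEquiv.surjective r
    have h2 : (TrivSqZeroExt.fstHom k K K).comp (aeval w) = aeval v := by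
      ext b
      simp only [w, AlgHom.comp_apply, aeval_X, TrivSqZeroExt.fstHom_apply, TrivSqZeroExt.fst_add,
        TrivSqZeroExt.fst_inl, TrivSqZeroExt.fst_inr, add_zero, hv]
    have h3 := DFunLike.congr_fun h2 P
    have h4 : ψ (hB.1.aevalEquiv P) = aeval w P :=
      congrArg (aeval w) (hB.1.aevalEquiv.symm_apply_apply P)
    rw [h4]
    rw [AlgHom.comp_apply] at h3
    exact h3.trans (hB.1.algebraMap_aevalEquiv P).symm
  letI alg : Algebra R (TrivSqZeroExt K K) := ψ.toRingHom.toAlgebra
  let g : TrivSqZeroExt K K →ₐ[R] K :=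
    { (TrivSqZeroExt.fstHom k K K).toRingHom with commutes' := hψ }
  have hg : Function.Surjective g := fun y => ⟨TrivSqZeroExt.inl y, rfl⟩
  have hg' : IsNilpotent (RingHom.ker (g : TrivSqZeroExt K K →+* K)) := by
    refine ⟨2, ?_⟩
    have h0 : ∀ I : Ideal (TrivSqZeroExt K K), I ^ 2 = I * I := fun I => pow_two I
    refine (h0 _).trans ?_
    rw [Ideal.zero_eq_bot, eq_bot_iff, Ideal.mul_le]
    intro a ha b hb
    have ha' : a.fst = 0 := ha
    have hb' : b.fst = 0 := hb
    rw [Ideal.mem_bot]
    ext <;> simp [ha', hb']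
  let φ := Algebra.FormallySmooth.liftOfSurjective (AlgHom.id R K) g hg hg'
  have hφ : ∀ r : R, φ (r : K) = ψ r := fun r => φ.commutes r
  refine ⟨φ.toRingHom, fun y => ?_, fun a => ?_, ?_⟩
  · exact Algebra.FormallySmooth.liftOfSurjective_apply (AlgHom.id R K) g hg hg' y
  · have h2 := hφ (algebraMap k R a)
    rw [ψ.commutes] at h2
    have h3 : φ.toRingHom (algebraMap k K a) = algebraMap k (TrivSqZeroExt K K) a := h2
    rw [h3]
    simp [TrivSqZeroExt.algebraMap_eq_inl']
  · have hx' : x ∈ B := hxB rfl
    have h2 := hφ (hB.1.aevalEquiv (X ⟨x, hx'⟩))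
    have h3 : ((hB.1.aevalEquiv (X ⟨x, hx'⟩) : R) : K) = x := by
      have := hB.1.algebraMap_aevalEquiv (X ⟨x, hx'⟩)
      rw [aeval_X] at this
      exact this
    rw [h3] at h2
    have h4 : φ.toRingHom x = _ := h2
    rw [h4]
    simp [ψ, w]

lemma exists_derivation [CharZero k] {x : K} (hx : Transcendental k x) :
    ∃ D : Derivation k K K, D x = 1 := by
  obtain ⟨φ, h1, h2, h3⟩ := exists_hom_dual hx
  have hmul : ∀ a b, (φ (a * b)).snd = a * (φ b).snd + b * (φ a).snd := fun a b => by
    rw [map_mul, TrivSqZeroExt.snd_mul, h1, h1]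
    simp [mul_comm]
  let L : K →ₗ[k] K :=
    { toFun := fun y => (φ y).snd
      map_add' := fun a b => by simp
      map_smul' := fun a b => by
        simp only [Algebra.smul_def, hmul, h2, RingHom.id_apply]
        simp }
  exact ⟨Derivation.mk' L fun a b => hmul a b, h3⟩

lemma derivation_aeval {σ : Type*} [Fintype σ] [DecidableEq σ] (D : Derivation k K K) (y : σ → K)
    (P : MvPolynomial σ k) : D (aeval y P) = ∑ j, aeval y (pderiv j P) * D (y j) := by
  induction P using MvPolynomial.induction_on with
  | C a => simp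
  | add p q hp hq => simp [hp, hq, add_mul, Finset.sum_add_distrib]
  | mul_X p i hp =>
    simp only [map_mul, aeval_X, Derivation.leibniz, hp, smul_eq_mul, map_add, add_mul,
      Finset.sum_add_distrib, pderiv_X, Finset.mul_sum]
    congr 1
    · rw [Finset.sum_eq_single i]
      · simp
      · intro j _ hj; simp [Pi.single_apply, hj.symm, hj]
      · simp
    · exact Finset.sum_congr rfl fun j _ => by ring

end Pool.Agent.MP_249f74_an.H88
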