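import Mathlib
import Pool.Agent.MP_249f74_an.H69.Tangent
import Pool.Agent.MP_249f74_an.H88.Rank

/-!
The points whose coordinates have transcendence rank at most `r` over a countable field form a set
of Hausdorff dimension at most `r`.
-/

open Set MvPolynomial Module

namespace Pool.Agent.MP_249f74_an.H88

open H69

lemma countable_mv {k ι : Type*} [CommRing k] [Countable k] [Countable ι] :
    Countable (MvPolynomial ι k) := by
  exact (AddMonoidAlgebra.coeffEquiv (R := k) (M := ι →₀ ℕ)).injective.countable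

lemma countable_poly {k : Type*} [CommRing k] [Countable k] :
    Countable (Polynomial k) := by
  have : Countable (AddMonoidAlgebra k ℕ) :=
    (AddMonoidAlgebra.coeffEquiv (R := k) (M := ℕ)).injective.countable
  exact Polynomial.toFinsupp_injective.countable

lemma exists_span {k E ι : Type*} [Field k] [Field E] [Algebra k E] [Fintype ι] (y : ι → E) {r : ℕ}
    (h : rk k (range y) ≤ r) :
    ∃ I : Finset ι, I.card ≤ r ∧ ∀ j, y j ∈ cl k (range fun i : I => y i) := by
  obtain ⟨m, hm⟩ := ENat.ne_top_iff_exists.1 (ne_top_of_le_ne_top (ENat.coe_ne_top r) h)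
  obtain ⟨J, hJ, hind⟩ := (le_rk_iff y m).1 hm.le
  refine ⟨J, ?_, fun j => ?_⟩
  · rw [← hm] at h
    rw [hJ]; exact_mod_cast h
  · by_contra h1
    have h2 := rk_insert h1
    have h3 : (m : ℕ∞) ≤ rk k (range fun i : J => y i) :=
      (le_rk_iff _ m).2 ⟨Finset.univ, by simp [hJ], hind.comp _ Subtype.val_injective⟩
    have h4 : rk k (insert (y j) (range fun i : J => y i)) ≤ rk k (range y) := by
      refine rk_le (Subset.trans ?_ (subset_cl _))
      rintro _ (rfl | ⟨i, rfl⟩) <;> exact ⟨_, rfl⟩
    rw [h2, ← hm] at h4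
    have h5 : (m : ℕ∞) + 1 ≤ m := le_trans (by gcongr) h4
    norm_cast at h5
    omega

lemma exists_simple_root {R K : Type*} [CommRing R] [Field K] [CharZero K] (φ : R →+* K) (t : K)
    (p : Polynomial R) (h0 : p.map φ ≠ 0) (h1 : p.eval₂ φ t = 0) :
    ∃ q : Polynomial R, q.eval₂ φ t = 0 ∧ q.derivative.eval₂ φ t ≠ 0 := by
  induction h : (p.map φ).natDegree using Nat.strong_induction_on generalizing p with
  | _ n ih =>
    by_cases h2 : p.derivative.eval₂ φ t = 0
    · have h3 : (p.map φ).natDegree ≠ 0 := by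
        intro h4
        rw [Polynomial.eval₂_eq_eval_map, Polynomial.eq_C_of_natDegree_eq_zero h4,
          Polynomial.eval_C] at h1
        apply h0
        rw [Polynomial.eq_C_of_natDegree_eq_zero h4, h1, map_zero]
      refine ih _ ?_ p.derivative ?_ h2 rfl
      · rw [← Polynomial.derivative_map, ← h]
        exact Polynomial.natDegree_derivative_lt h3
      · rw [← Polynomial.derivative_map]
        exact fun h5 => h3 (Polynomial.natDegree_eq_zero_of_derivative_eq_zero h5)
    · exact ⟨p, h1, h2⟩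

lemma exists_simple_of_cl {k K ι : Type*} [Field k] [Field K] [CharZero K] [Algebra k K]
    (y : ι → K) {t : K} (h : t ∈ cl k (range y)) :
    ∃ q : Polynomial (MvPolynomial ι k),
      q.eval₂ (aeval y : MvPolynomial ι k →ₐ[k] K).toRingHom t = 0 ∧
      q.derivative.eval₂ (aeval y : MvPolynomial ι k →ₐ[k] K).toRingHom t ≠ 0 := by
  obtain ⟨p, hp0, hp⟩ := mem_cl.1 h
  have h2 : p.map (algebraMap _ K) ∈
      Polynomial.lifts (aeval y : MvPolynomial ι k →ₐ[k] K).toRingHom := by
    rw [Polynomial.lifts_iff_coeff_lifts]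
    intro n
    have h3 := (p.coeff n).2
    have h4 := Algebra.adjoin_range_eq_range_aeval k y
    rw [Polynomial.coeff_map]
    exact h4.le h3
  obtain ⟨q, hq⟩ := h2
  have hq' : q.map (aeval y : MvPolynomial ι k →ₐ[k] K).toRingHom = p.map (algebraMap _ K) := hq
  refine exists_simple_root _ t q ?_ ?_
  · rw [hq']
    exact (Polynomial.map_ne_zero_iff Subtype.val_injective).2 hp0
  · rw [Polynomial.eval₂_eq_eval_map, hq', ← Polynomial.eval₂_eq_eval_map]
    exact hp

variable {X : Type*} [NormedAddCommGroup X] [NormedSpace ℝ X]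
variable {k : Type*} [Field k] [Algebra k ℝ]

lemma dir_aeval {ι : Type*} (c : ι → X →L[ℝ] ℝ) (x w : X) (hw : ∀ i, c i w = 0)
    (a : MvPolynomial ι k) : Dir (fun x => aeval (fun i => c i x) a) x w 0 := by
  induction a using MvPolynomial.induction_on with
  | C a => simpa using Dir.const _
  | add p q hp hq => simpa using hp.add hq
  | mul_X p i hp => simpa [hw] using hp.mul (Dir.clm (c i))

lemma dir_eval₂ {ι : Type*} (c : ι → X →L[ℝ] ℝ) (b : X →L[ℝ] ℝ) (x w : X) (hw : ∀ i, c i w = 0)
    (p : Polynomial (MvPolynomial ι k)) :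
    Dir (fun x => p.eval₂ (aeval (fun i => c i x) : MvPolynomial ι k →ₐ[k] ℝ).toRingHom (b x)) x w
      (p.derivative.eval₂ (aeval (fun i => c i x) : MvPolynomial ι k →ₐ[k] ℝ).toRingHom (b x)
        * b w) := by
  induction p using Polynomial.induction_on with
  | C a => simpa using dir_aeval c x w hw a
  | add p q hp hq =>
    simp only [Polynomial.eval₂_add, map_add, add_mul]
    exact hp.add hq
  | monomial n a hp =>
    rw [pow_succ, ← mul_assoc]
    generalize Polynomial.C a * Polynomial.X ^ n = p at hp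
    simp only [Polynomial.derivative_mul, Polynomial.derivative_X, mul_one, Polynomial.eval₂_add,
      Polynomial.eval₂_mul, Polynomial.eval₂_X]
    exact (hp.mul (Dir.clm b)).congr (by ring)

theorem dimH_rk_le [FiniteDimensional ℝ X] [Countable k] {ι : Type*} [Fintype ι]
    (c : ι → X →L[ℝ] ℝ) (hc : ∀ w, (∀ i, c i w = 0) → w = 0) (r : ℕ) :
    dimH {x | rk k (range fun i => c i x) ≤ r} ≤ r := by
  classical
  have := @countable_mv
  have := @countable_poly
  let Z : (I : Finset ι) → (ι → Polynomial (MvPolynomial I k)) → Set X := fun I P =>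
    {x | I.card ≤ r ∧ ∀ j,
      (P j).eval₂ (aeval (fun i : I => c i x) : MvPolynomial I k →ₐ[k] ℝ).toRingHom (c j x) = 0 ∧
      (P j).derivative.eval₂ (aeval (fun i : I => c i x) : MvPolynomial I k →ₐ[k] ℝ).toRingHom
        (c j x) ≠ 0}
  have hcov : {x | rk k (range fun i => c i x) ≤ r} ⊆ ⋃ I, ⋃ P, Z I P := by
    intro x hx
    obtain ⟨I, hI, h⟩ := exists_span _ hx
    choose P hP using fun j => exists_simple_of_cl (k := k) (fun i : I => c i x) (h j)
    exact mem_iUnion₂.2 ⟨I, P, hI, hP⟩
  refine (dimH_mono hcov).trans ?_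
  rw [dimH_iUnion]
  refine iSup_le fun I => ?_
  rw [dimH_iUnion]
  refine iSup_le fun P => ?_
  refine le_trans (dimH_mono fun x hx => ?_) (dimH_small_tangent (Z I P) r)
  refine ⟨hx, ?_⟩
  let A : Tan (Z I P) x →ₗ[ℝ] (I → ℝ) :=
    (LinearMap.pi fun i : I => (c i : X →ₗ[ℝ] ℝ)).comp (Submodule.subtype _)
  have hA : Function.Injective A := by
    rw [injective_iff_map_eq_zero]
    intro w hw
    have h1 : ∀ i : I, c i w = 0 := fun i => congrFun hw i
    refine Subtype.ext (hc _ fun j => ?_)
    have h2 := (dir_eval₂ (fun i : I => c i) (c j) x w h1 (P j)).eq_zero hx w.2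
      (fun x hx => (hx.2 j).1)
    exact (mul_eq_zero.1 h2).resolve_left (hx.2 j).2
  have h3 := LinearMap.finrank_le_finrank_of_injective hA
  simp only [finrank_fintype_fun_eq_card, Fintype.card_coe] at h3
  exact h3.trans hx.1

end Pool.Agent.MP_249f74_an.H88
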